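import Pool.Agent.H207.BT.Stm4

/-!
# Roots with parameters, abstract
-/

set_option autoImplicit false

open Topology Filter Metric Set

namespace Pool.Agent.H734.BT207

/-- holomorphic maps are locally Lipschitz -/
theorem lip {E F : Type*} [NormedAddCommGroup E] [NormedSpace ℂ E] [NormedAddCommGroup F]
    [NormedSpace ℂ F] (f : E → F) (c : E) (R₀ : ℝ) (hR₀ : 0 < R₀)
    (hf : DifferentiableOn ℂ f (ball c R₀)) :
    ∃ R : ℝ, 0 < R ∧ R ≤ R₀ ∧ ∃ L : ℝ, 1 ≤ L ∧ ∀ x ∈ ball c R, ∀ y ∈ ball c R,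
      ‖f x - f y‖ ≤ L * ‖x - y‖ := by
  have hc : ContinuousAt f c := (hf.differentiableAt (ball_mem_nhds c hR₀)).continuousAt
  obtain ⟨δ, hδ, h⟩ := Metric.continuousAt_iff.1 hc (1 / 2) (by norm_num)
  obtain ⟨R₁, hR₁⟩ : ∃ R₁ : ℝ, R₁ = min δ R₀ := ⟨_, rfl⟩
  have hR₁pos : 0 < R₁ := by rw [hR₁]; exact lt_min hδ hR₀
  have hR₁δ : R₁ ≤ δ := by rw [hR₁]; exact min_le_left _ _
  have hR₁R : R₁ ≤ R₀ := by rw [hR₁]; exact min_le_right _ _
  refine ⟨R₁ / 4, by positivity, by linarith, max 1 (1 / (R₁ / 2)), le_max_left _ _, ?_⟩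
  intro x hx y hy
  rw [mem_ball] at hx hy
  have hsub : ball y (R₁ / 2) ⊆ ball c R₁ := by
    intro z hz
    rw [mem_ball] at hz ⊢
    have := dist_triangle z y c
    linarith
  have hmaps : MapsTo f (ball y (R₁ / 2)) (closedBall (f y) 1) := by
    intro z hz
    have hz' := hsub hz
    rw [mem_ball] at hz'
    have a1 := h (lt_of_lt_of_le hz' hR₁δ)
    have a2 := h (show dist y c < δ by linarith)
    rw [mem_closedBall]
    have a3 := dist_triangle_right (f z) (f y) (f c)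
    linarith
  have hd : DifferentiableOn ℂ f (ball y (R₁ / 2)) :=
    hf.mono (hsub.trans (ball_subset_ball hR₁R))
  have hxy : x ∈ ball y (R₁ / 2) := by
    rw [mem_ball]
    have := dist_triangle_right x y c
    linarith
  have key := Complex.dist_le_div_mul_dist_of_mapsTo_ball hd hmaps hxy
  rw [dist_eq_norm, dist_eq_norm] at key
  refine key.trans (mul_le_mul_of_nonneg_right (le_max_right _ _) (norm_nonneg _))

/-- the root in one variable -/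
theorem root1 (hRT : Pool.Agent.H207.BT.S_RT1) {G0 : ℂ → ℂ} {ζ₀ : ℂ} {ρ : ℝ} (hρ : 0 < ρ)
    {H : ℂ → ℂ} (hH : AnalyticAt ℂ H ζ₀) (hH0 : H ζ₀ ≠ 0) (m : ℕ) (hm : 1 ≤ m)
    (hG : ∀ u ∈ ball ζ₀ ρ, HasDerivAt G0 ((u - ζ₀) ^ m * H u) u) :
    ∃ η : ℝ, 0 < η ∧ ∃ B : ℝ, 1 ≤ B ∧ ∀ (t z : ℂ) (y : ℝ), ‖t‖ = y ^ (m + 1) → 0 < y → y ≤ η →
      ∃ u : ℂ, G0 u - G0 ζ₀ = t ∧ ‖u - ζ₀‖ ≤ B * y ∧ y ≤ B * ‖u - ζ₀‖ ∧ y ≤ B * ‖u - z‖ := by
  have hdiff : DifferentiableOn ℂ G0 (ball ζ₀ ρ) := fun u hu =>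
    (hG u hu).differentiableAt.differentiableWithinAt
  have hGan : AnalyticAt ℂ G0 ζ₀ := hdiff.analyticAt (ball_mem_nhds ζ₀ hρ)
  have hord : analyticOrderAt (deriv G0) ζ₀ = (m : ℕ∞) := by
    rw [hGan.deriv.analyticOrderAt_eq_natCast]
    refine ⟨H, hH, hH0, ?_⟩
    filter_upwards [ball_mem_nhds ζ₀ hρ] with u hu
    rw [(hG u hu).deriv, smul_eq_mul]
  have h1 := hGan.analyticOrderAt_deriv_add_one
  rw [hord] at h1
  have hGan2 : AnalyticAt ℂ (fun u => G0 u - G0 ζ₀) ζ₀ := hGan.sub analyticAt_const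
  have h2 : analyticOrderAt (fun u => G0 u - G0 ζ₀) ζ₀ = ((m + 1 : ℕ) : ℕ∞) := by
    rw [← h1]
    push_cast
    rfl
  rw [hGan2.analyticOrderAt_eq_natCast] at h2
  obtain ⟨h, hh, hh0, hev⟩ := h2
  obtain ⟨η, hη, B, hB, hroot⟩ := hRT (fun u => G0 u - G0 ζ₀) ζ₀ (m + 1) (by omega) hGan2
    ⟨h, hh, hh0, by
      filter_upwards [hev] with u hu
      rw [hu, smul_eq_mul]⟩
  exact ⟨η, hη, B, hB, hroot⟩

theorem small (m : ℕ) : ∃ θ : ℝ, 0 < θ ∧ θ ≤ 1 / 2 ∧ ∀ e₁ e₂ : ℂ, ‖e₁‖ ≤ θ → ‖e₂‖ ≤ θ →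
    ‖(1 + e₁) ^ m * (1 + e₂) - 1‖ ≤ 1 / 4 := by
  have hc : Continuous fun e : ℂ × ℂ => (1 + e.1) ^ m * (1 + e.2) := by fun_prop
  obtain ⟨δ, hδ, h⟩ := Metric.continuousAt_iff.1 (hc.continuousAt (x := 0)) (1 / 4) (by norm_num)
  refine ⟨min (δ / 2) (1 / 2), by positivity, min_le_right _ _, ?_⟩
  intro e₁ e₂ h1 h2
  have h3 : dist ((e₁, e₂) : ℂ × ℂ) 0 < δ := by
    rw [dist_zero_right, Prod.norm_def]
    have a1 : ‖e₁‖ ≤ δ / 2 := h1.trans (min_le_left _ _)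
    have a2 : ‖e₂‖ ≤ δ / 2 := h2.trans (min_le_left _ _)
    exact lt_of_le_of_lt (max_le a1 a2) (by linarith)
  have h4 := h h3
  rw [dist_eq_norm] at h4
  have e : (1 + e₁) ^ m * (1 + e₂) - 1 = (1 + ((e₁, e₂) : ℂ × ℂ).1) ^ m * (1 + ((e₁, e₂) : ℂ × ℂ).2) -
      (1 + (0 : ℂ × ℂ).1) ^ m * (1 + (0 : ℂ × ℂ).2) := by simp
  rw [e]
  exact h4.le

theorem t_ROOTA (hRT : Pool.Agent.H207.BT.S_RT1) : Pool.Agent.H207.BT.S_ROOTA := by
  intro k m ρ g ζ h₁ hm hρ hζ hg hh hh0 hder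
  -- local Lipschitz constants
  obtain ⟨R1, hR1, hR1ρ, L1, hL1, hlip1⟩ := lip ζ 0 ρ hρ hζ
  obtain ⟨R2, hR2, hR2ρ, L2, hL2, hlip2⟩ := lip (fun p : (Fin k → ℂ) × ℂ => g p.1 p.2) (0, ζ 0) ρ hρ
    (by rw [← ball_prod_same]; exact hg)
  obtain ⟨R3, hR3, hR3ρ, L3, hL3, hlip3⟩ := lip h₁ (0, ζ 0) ρ hρ (by rw [← ball_prod_same]; exact hh)
  have hmem0 : ((0 : Fin k → ℂ), ζ 0) ∈ (ball 0 ρ ×ˢ ball (ζ 0) ρ : Set ((Fin k → ℂ) × ℂ)) :=
    ⟨mem_ball_self hρ, mem_ball_self hρ⟩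
  have hne := hh0 _ hmem0
  obtain ⟨c₀, hc₀⟩ : ∃ c₀ : ℝ, c₀ = ‖h₁ (0, ζ 0)‖ / 2 := ⟨_, rfl⟩
  have hc₀pos : 0 < c₀ := by
    rw [hc₀]
    have := norm_pos_iff.2 hne
    linarith
  obtain ⟨R, hR⟩ : ∃ R : ℝ, R = min (min R1 R2) (min R3 (c₀ / L3)) := ⟨_, rfl⟩
  have hL3pos : 0 < L3 := by linarith
  have hRpos : 0 < R := by
    rw [hR]
    exact lt_min (lt_min hR1 hR2) (lt_min hR3 (by positivity))
  have hRR1 : R ≤ R1 := by rw [hR]; exact (min_le_left _ _).trans (min_le_left _ _)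
  have hRR2 : R ≤ R2 := by rw [hR]; exact (min_le_left _ _).trans (min_le_right _ _)
  have hRR3 : R ≤ R3 := by rw [hR]; exact (min_le_right _ _).trans (min_le_left _ _)
  have hRc : R ≤ c₀ / L3 := by rw [hR]; exact (min_le_right _ _).trans (min_le_right _ _)
  have hRρ : R ≤ ρ := hRR1.trans hR1ρ
  obtain ⟨L, hL⟩ : ∃ L : ℝ, L = L1 + L2 + L3 := ⟨_, rfl⟩
  have hLL1 : L1 ≤ L := by linarith
  have hLL2 : L2 ≤ L := by linarith
  have hLL3 : L3 ≤ L := by linarith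
  have hLone : 1 ≤ L := by linarith
  have hLpos : 0 < L := by linarith
  have hζL : ∀ s ∈ ball (0 : Fin k → ℂ) R, ∀ s' ∈ ball (0 : Fin k → ℂ) R,
      ‖ζ s - ζ s'‖ ≤ L * ‖s - s'‖ := fun s hs s' hs' =>
    (hlip1 s (ball_subset_ball hRR1 hs) s' (ball_subset_ball hRR1 hs')).trans
      (mul_le_mul_of_nonneg_right hLL1 (norm_nonneg _))
  have hgL : ∀ s ∈ ball (0 : Fin k → ℂ) R, ∀ s' ∈ ball (0 : Fin k → ℂ) R, ∀ u ∈ ball (ζ 0) R,
      ‖g s u - g s' u‖ ≤ L * ‖s - s'‖ := by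
    intro s hs s' hs' u hu
    have h1 : ((s, u) : (Fin k → ℂ) × ℂ) ∈ ball ((0 : Fin k → ℂ), ζ 0) R2 := by
      rw [← ball_prod_same]
      exact ⟨ball_subset_ball hRR2 hs, ball_subset_ball hRR2 hu⟩
    have h2 : ((s', u) : (Fin k → ℂ) × ℂ) ∈ ball ((0 : Fin k → ℂ), ζ 0) R2 := by
      rw [← ball_prod_same]
      exact ⟨ball_subset_ball hRR2 hs', ball_subset_ball hRR2 hu⟩
    have h3 := hlip2 _ h1 _ h2
    have h4 : ‖((s, u) : (Fin k → ℂ) × ℂ) - (s', u)‖ = ‖s - s'‖ := by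
      rw [Prod.mk_sub_mk, sub_self, Prod.norm_def]
      simp
    rw [h4] at h3
    exact h3.trans (mul_le_mul_of_nonneg_right hLL2 (norm_nonneg _))
  have hhL : ∀ p ∈ ball ((0 : Fin k → ℂ), ζ 0) R, ∀ p' ∈ ball ((0 : Fin k → ℂ), ζ 0) R,
      ‖h₁ p - h₁ p'‖ ≤ L * ‖p - p'‖ := fun p hp p' hp' =>
    (hlip3 p (ball_subset_ball hRR3 hp) p' (ball_subset_ball hRR3 hp')).trans
      (mul_le_mul_of_nonneg_right hLL3 (norm_nonneg _))
  have hhc : ∀ p ∈ ball ((0 : Fin k → ℂ), ζ 0) R, c₀ ≤ ‖h₁ p‖ := by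
    intro p hp
    have h1 := hlip3 p (ball_subset_ball hRR3 hp) (0, ζ 0) (mem_ball_self hR3)
    rw [mem_ball, dist_eq_norm] at hp
    have h2 : L3 * ‖p - (0, ζ 0)‖ ≤ c₀ := by
      have h3 : ‖p - (0, ζ 0)‖ ≤ c₀ / L3 := hp.le.trans hRc
      rw [le_div_iff₀ hL3pos] at h3
      linarith
    have h3 := norm_sub_norm_le (h₁ (0, ζ 0)) (h₁ p)
    rw [norm_sub_rev] at h3
    have h4 : ‖h₁ (0, ζ 0)‖ = 2 * c₀ := by rw [hc₀]; ring
    linarith
  obtain ⟨θ, hθ, hθ2, hsmall⟩ := small m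
  have hHan : AnalyticAt ℂ (fun u => h₁ (0, u)) (ζ 0) := by
    have hd : DifferentiableOn ℂ (fun u => h₁ (0, u)) (ball (ζ 0) ρ) := by
      refine hh.comp (t := (ball 0 ρ ×ˢ ball (ζ 0) ρ : Set ((Fin k → ℂ) × ℂ)))
        (f := fun u : ℂ => ((0 : Fin k → ℂ), u)) ?_ ?_
      · exact (by fun_prop : Differentiable ℂ fun u : ℂ => ((0 : Fin k → ℂ), u)).differentiableOn
      · intro u hu
        exact ⟨mem_ball_self hρ, hu⟩
    exact hd.analyticAt (ball_mem_nhds _ hρ)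
  obtain ⟨η₁, hη₁, B₁, hB₁, hroot⟩ := root1 hRT hρ hHan hne m hm
    (fun u hu => hder 0 (mem_ball_self hρ) u hu)
  have hB₁pos : 0 < B₁ := by linarith
  -- the constants
  obtain ⟨a, ha⟩ : ∃ a : ℝ, a = min (θ / (2 * B₁)) (θ * c₀ / L) := ⟨_, rfl⟩
  have hapos : 0 < a := by
    rw [ha]
    exact lt_min (by positivity) (by positivity)
  have ha1 : 2 * a * B₁ ≤ θ := by
    have : a ≤ θ / (2 * B₁) := by rw [ha]; exact min_le_left _ _
    rw [le_div_iff₀ (by positivity)] at this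
    linarith
  have ha2 : a * L ≤ θ * c₀ := by
    have : a ≤ θ * c₀ / L := by rw [ha]; exact min_le_right _ _
    rwa [le_div_iff₀ hLpos] at this
  have ha3 : a ≤ 1 := by
    have h1 : a * 1 ≤ a * B₁ := mul_le_mul_of_nonneg_left hB₁ hapos.le
    nlinarith
  obtain ⟨Q, hQ⟩ : ∃ Q : ℝ, Q = B₁ ^ m / c₀ := ⟨_, rfl⟩
  have hQpos : 0 < Q := by rw [hQ]; positivity
  obtain ⟨B, hB⟩ : ∃ B : ℝ, B = B₁ + L / a + 4 * (L + 1) * Q / a := ⟨_, rfl⟩
  have hBB₁ : B₁ ≤ B := by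
    have h1 : 0 ≤ L / a := by positivity
    have h2 : 0 ≤ 4 * (L + 1) * Q / a := by positivity
    linarith
  have hB1 : 1 ≤ B := hB₁.trans hBB₁
  have hBpos : 0 < B := by linarith
  have hBL : L ≤ a * B := by
    have h1 : L / a ≤ B := by
      have h2 : 0 ≤ 4 * (L + 1) * Q / a := by positivity
      linarith
    rw [div_le_iff₀ hapos] at h1
    linarith
  have hBQ : 4 * (L + 1) * Q ≤ a * B := by
    have h1 : 4 * (L + 1) * Q / a ≤ B := by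
      have h2 : 0 ≤ L / a := by positivity
      linarith
    rw [div_le_iff₀ hapos] at h1
    linarith
  obtain ⟨η, hη⟩ : ∃ η : ℝ, η = min (min η₁ 1) (R / (2 * (B₁ + 2))) := ⟨_, rfl⟩
  have hηpos : 0 < η := by
    rw [hη]
    exact lt_min (lt_min hη₁ one_pos) (by positivity)
  have hηη₁ : η ≤ η₁ := by rw [hη]; exact (min_le_left _ _).trans (min_le_left _ _)
  have hη1 : η ≤ 1 := by rw [hη]; exact (min_le_left _ _).trans (min_le_right _ _)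
  have hηR : η * (2 * (B₁ + 2)) ≤ R := by
    have : η ≤ R / (2 * (B₁ + 2)) := by rw [hη]; exact min_le_right _ _
    rwa [le_div_iff₀ (by positivity)] at this
  have hηR' : η ≤ R := by nlinarith
  refine ⟨η, hηpos, hηR'.trans hRρ, B, hB1, ?_⟩
  intro z w y r K hz hy hyη hyw hr hK hBK hw
  have hy1 : y ≤ 1 := hyη.trans hη1
  have hyR : y * (2 * (B₁ + 2)) ≤ R :=
    (mul_le_mul_of_nonneg_right hyη (by positivity)).trans hηR
  have hKpos : 0 < K := by linarith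
  obtain ⟨q₀, hq1, hq2, hq3, hq4⟩ := hroot (w 0 - g 0 (ζ 0)) z y hyw.symm hy (hyη.trans hηη₁)
  have hgq : g 0 q₀ = w 0 := sub_left_inj.1 hq1
  have hd₀ : 0 < ‖q₀ - ζ 0‖ := by
    by_contra hcon
    rw [not_lt] at hcon
    have : B₁ * ‖q₀ - ζ 0‖ ≤ 0 := mul_nonpos_of_nonneg_of_nonpos hB₁pos.le hcon
    linarith
  have hq₀ne : q₀ - ζ 0 ≠ 0 := norm_pos_iff.1 hd₀
  have hym : y ^ (m + 1) ≤ y := by
    calc y ^ (m + 1) ≤ y ^ 1 := pow_le_pow_of_le_one hy.le hy1 (by omega)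
      _ = y := pow_one y
  have hrB : r * B ≤ y := by
    have h1 : B * r ≤ B * K * r := by
      have : B * 1 * r ≤ B * K * r := by gcongr
      linarith
    linarith
  have hLr : L * r ≤ a * y := by
    calc L * r ≤ a * B * r := by gcongr
      _ = a * (r * B) := by ring
      _ ≤ a * y := by gcongr
  have hra : r ≤ a * y := by
    have : 1 * r ≤ L * r := by gcongr
    linarith
  have hay : a * y ≤ y := by
    have : a * y ≤ 1 * y := by gcongr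
    linarith
  have hyR2 : y < R := by nlinarith
  have hrR : r < R := by linarith
  have hq₀R : ‖q₀ - ζ 0‖ < R := by nlinarith
  have hq₀mem : q₀ ∈ ball (ζ 0) R := by rwa [mem_ball, dist_eq_norm]
  have hp₀mem : ((0 : Fin k → ℂ), q₀) ∈ ball ((0 : Fin k → ℂ), ζ 0) R := by
    rw [← ball_prod_same]
    exact ⟨mem_ball_self hRpos, hq₀mem⟩
  have hh₀c := hhc _ hp₀mem
  have hh₀ne : h₁ (0, q₀) ≠ 0 := by
    intro h0
    rw [h0, norm_zero] at hh₀c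
    linarith
  obtain ⟨D₀, hD₀⟩ : ∃ D₀ : ℂ, D₀ = (q₀ - ζ 0) ^ m * h₁ (0, q₀) := ⟨_, rfl⟩
  have hD₀ne : D₀ ≠ 0 := by
    rw [hD₀]
    exact mul_ne_zero (pow_ne_zero _ hq₀ne) hh₀ne
  have hD₀pos : 0 < ‖D₀‖ := norm_pos_iff.2 hD₀ne
  have hQD : y ^ m ≤ Q * ‖D₀‖ := by
    calc y ^ m ≤ (B₁ * ‖q₀ - ζ 0‖) ^ m := pow_le_pow_left₀ hy.le hq3 m
      _ = (B₁ ^ m / c₀) * (‖q₀ - ζ 0‖ ^ m * c₀) := by
          rw [mul_pow]
          field_simp
      _ ≤ (B₁ ^ m / c₀) * (‖q₀ - ζ 0‖ ^ m * ‖h₁ (0, q₀)‖) := by gcongr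
      _ = Q * ‖D₀‖ := by rw [hQ, hD₀, norm_mul, norm_pow]
  -- the derivative
  have hDv : ∀ s ∈ ball (0 : Fin k → ℂ) r, ∀ u ∈ closedBall q₀ (a * y),
      ‖(u - ζ s) ^ m * h₁ (s, u) - D₀‖ ≤ ‖D₀‖ / 4 ∧ u ∈ ball (ζ 0) R ∧ u ≠ ζ s := by
    intro s hs u hu
    have hsn : ‖s‖ < r := by rwa [mem_ball_zero_iff] at hs
    have hsR : s ∈ ball (0 : Fin k → ℂ) R := ball_subset_ball hrR.le hs
    rw [mem_closedBall, dist_eq_norm] at hu
    have huR : u ∈ ball (ζ 0) R := by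
      rw [mem_ball, dist_eq_norm]
      have : u - ζ 0 = (u - q₀) + (q₀ - ζ 0) := by ring
      rw [this]
      refine lt_of_le_of_lt (norm_add_le _ _) ?_
      nlinarith
    have hζs := hζL s hsR 0 (mem_ball_self hRpos)
    rw [sub_zero] at hζs
    have hζs' : ‖ζ s - ζ 0‖ ≤ a * y := hζs.trans ((by gcongr : L * ‖s‖ ≤ L * r).trans hLr)
    obtain ⟨e₁, he₁⟩ : ∃ e₁ : ℂ, e₁ = ((u - q₀) - (ζ s - ζ 0)) / (q₀ - ζ 0) := ⟨_, rfl⟩
    have hu1 : u - ζ s = (q₀ - ζ 0) * (1 + e₁) := by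
      rw [he₁]
      field_simp
      ring
    have he₁n : ‖e₁‖ ≤ θ := by
      rw [he₁, norm_div, div_le_iff₀ hd₀]
      calc ‖(u - q₀) - (ζ s - ζ 0)‖ ≤ ‖u - q₀‖ + ‖ζ s - ζ 0‖ := norm_sub_le _ _
        _ ≤ a * y + a * y := add_le_add hu hζs'
        _ = 2 * a * y := by ring
        _ ≤ 2 * a * (B₁ * ‖q₀ - ζ 0‖) := by gcongr
        _ = (2 * a * B₁) * ‖q₀ - ζ 0‖ := by ring
        _ ≤ θ * ‖q₀ - ζ 0‖ := by gcongr
    obtain ⟨e₂, he₂⟩ : ∃ e₂ : ℂ, e₂ = (h₁ (s, u) - h₁ (0, q₀)) / h₁ (0, q₀) := ⟨_, rfl⟩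
    have hu2 : h₁ (s, u) = h₁ (0, q₀) * (1 + e₂) := by
      rw [he₂]
      field_simp
      ring
    have hpmem : ((s, u) : (Fin k → ℂ) × ℂ) ∈ ball ((0 : Fin k → ℂ), ζ 0) R := by
      rw [← ball_prod_same]
      exact ⟨hsR, huR⟩
    have he₂n : ‖e₂‖ ≤ θ := by
      rw [he₂, norm_div, div_le_iff₀ (norm_pos_iff.2 hh₀ne)]
      have h1 := hhL _ hpmem _ hp₀mem
      have h2 : ‖((s, u) : (Fin k → ℂ) × ℂ) - (0, q₀)‖ ≤ a * y := by
        rw [Prod.mk_sub_mk, sub_zero, Prod.norm_def]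
        exact max_le (hsn.le.trans hra) hu
      calc ‖h₁ (s, u) - h₁ (0, q₀)‖ ≤ L * (a * y) := h1.trans (by gcongr)
        _ ≤ L * (a * 1) := by gcongr
        _ = a * L := by ring
        _ ≤ θ * c₀ := ha2
        _ ≤ θ * ‖h₁ (0, q₀)‖ := by gcongr
    refine ⟨?_, huR, ?_⟩
    · have h3 : (u - ζ s) ^ m * h₁ (s, u) - D₀ = D₀ * ((1 + e₁) ^ m * (1 + e₂) - 1) := by
        rw [hu1, hu2, hD₀, mul_pow]
        ring
      rw [h3, norm_mul]
      calc ‖D₀‖ * ‖(1 + e₁) ^ m * (1 + e₂) - 1‖ ≤ ‖D₀‖ * (1 / 4) := by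
            gcongr
            exact hsmall e₁ e₂ he₁n he₂n
        _ = ‖D₀‖ / 4 := by ring
    · intro h0
      rw [h0, sub_self] at hu1
      have h4 : 1 + e₁ = 0 := (mul_eq_zero.1 hu1.symm).resolve_left hq₀ne
      have h5 : ‖e₁‖ = 1 := by
        have : e₁ = -1 := by linear_combination h4
        rw [this, norm_neg, norm_one]
      linarith
  -- the contraction
  obtain ⟨T, hT⟩ : ∃ T : (Fin k → ℂ) → ℂ → ℂ, ∀ s u, T s u = u - (g s u - w s) / D₀ :=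
    ⟨_, fun _ _ => rfl⟩
  have hT1 : ∀ s ∈ ball (0 : Fin k → ℂ) r, ∀ u ∈ closedBall q₀ (a * y),
      ∀ u' ∈ closedBall q₀ (a * y), ‖T s u - T s u'‖ ≤ 1 / 4 * ‖u - u'‖ := by
    intro s hs u hu u' hu'
    have hsρ : s ∈ ball (0 : Fin k → ℂ) ρ := ball_subset_ball (hrR.le.trans hRρ) hs
    rw [hT s u, hT s u']
    refine Convex.norm_image_sub_le_of_norm_hasDerivWithin_le
      (f := fun u => u - (g s u - w s) / D₀)
      (f' := fun u => 1 - ((u - ζ s) ^ m * h₁ (s, u)) / D₀) ?_ ?_ (convex_closedBall q₀ (a * y)) hu' hu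
    · intro v hv
      have h6 := hder s hsρ v (ball_subset_ball hRρ (hDv s hs v hv).2.1)
      exact ((hasDerivAt_id v).sub ((h6.sub_const (w s)).div_const D₀)).hasDerivWithinAt
    · intro v hv
      have h6 := (hDv s hs v hv).1
      have h7 : (1 : ℂ) - ((v - ζ s) ^ m * h₁ (s, v)) / D₀ =
          -(((v - ζ s) ^ m * h₁ (s, v) - D₀) / D₀) := by
        field_simp
        ring
      show ‖(1 : ℂ) - ((v - ζ s) ^ m * h₁ (s, v)) / D₀‖ ≤ 1 / 4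
      rw [h7, norm_neg, norm_div, div_le_iff₀ hD₀pos]
      linarith
  have hT2 : ∀ s ∈ ball (0 : Fin k → ℂ) r, ‖T s q₀ - q₀‖ ≤ a * y / 4 := by
    intro s hs
    have hsn : ‖s‖ < r := by rwa [mem_ball_zero_iff] at hs
    have hsR : s ∈ ball (0 : Fin k → ℂ) R := ball_subset_ball hrR.le hs
    have h1 : T s q₀ - q₀ = -((g s q₀ - w s) / D₀) := by rw [hT]; ring
    rw [h1, norm_neg, norm_div, div_le_iff₀ hD₀pos]
    have h2 : g s q₀ - w s = (g s q₀ - g 0 q₀) + (w 0 - w s) := by rw [hgq]; ring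
    have h3 := hgL s hsR 0 (mem_ball_self hRpos) q₀ hq₀mem
    have h4 := hw 0 (mem_ball_self hr) s hs
    rw [sub_zero] at h3
    rw [zero_sub, norm_neg] at h4
    have h5 : ‖g s q₀ - w s‖ ≤ (L + 1) * (K * r) := by
      rw [h2]
      calc ‖(g s q₀ - g 0 q₀) + (w 0 - w s)‖ ≤ L * ‖s‖ + K * ‖s‖ :=
            (norm_add_le _ _).trans (add_le_add h3 h4)
        _ ≤ L * r + K * r := by gcongr
        _ ≤ L * (K * r) + K * r := by
            have : 1 * r ≤ K * r := by gcongr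
            have h8 : L * r ≤ L * (K * r) := by
              refine mul_le_mul_of_nonneg_left ?_ hLpos.le
              linarith
            linarith
        _ = (L + 1) * (K * r) := by ring
    refine h5.trans ?_
    have h6 : 4 * (L + 1) * Q * (K * r) ≤ a * (y * (Q * ‖D₀‖)) := by
      calc 4 * (L + 1) * Q * (K * r) ≤ a * B * (K * r) := by gcongr
        _ = a * (B * K * r) := by ring
        _ ≤ a * y ^ (m + 1) := by gcongr
        _ = a * (y * y ^ m) := by ring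
        _ ≤ a * (y * (Q * ‖D₀‖)) := by gcongr
    have h7 : Q * (4 * ((L + 1) * (K * r))) ≤ Q * (a * y * ‖D₀‖) := by
      calc Q * (4 * ((L + 1) * (K * r))) = 4 * (L + 1) * Q * (K * r) := by ring
        _ ≤ a * (y * (Q * ‖D₀‖)) := h6
        _ = Q * (a * y * ‖D₀‖) := by ring
    have h8 := le_of_mul_le_mul_left h7 hQpos
    linarith
  have hay0 : 0 ≤ a * y := by positivity
  have hfix : ∀ s ∈ ball (0 : Fin k → ℂ) r, ∃ q, q ∈ closedBall q₀ (a * y) ∧ T s q = q := by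
    intro s hs
    have hmaps : MapsTo (T s) (closedBall q₀ (a * y)) (closedBall q₀ (a * y)) := by
      intro u hu
      have h1 := hT1 s hs u hu q₀ (mem_closedBall_self hay0)
      have h2 := hT2 s hs
      rw [mem_closedBall, dist_eq_norm] at hu ⊢
      have : T s u - q₀ = (T s u - T s q₀) + (T s q₀ - q₀) := by ring
      rw [this]
      refine (norm_add_le _ _).trans ?_
      linarith
    have hcontr : ContractingWith (1 / 4 : NNReal) (hmaps.restrict (T s) _ _) := by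
      refine ⟨?_, LipschitzWith.of_dist_le_mul ?_⟩
      · rw [← NNReal.coe_lt_coe]
        norm_num
      · rintro ⟨u, hu⟩ ⟨v, hv⟩
        have h1 := hT1 s hs u hu v hv
        rw [Subtype.dist_eq, Subtype.dist_eq, dist_eq_norm, dist_eq_norm]
        simpa using h1
    obtain ⟨q, hq, hqf, -⟩ := ContractingWith.exists_fixedPoint' isClosed_closedBall.isComplete
      hmaps hcontr (mem_closedBall_self hay0) (edist_ne_top _ _)
    exact ⟨q, hq, hqf⟩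
  choose! q hqb hqT using hfix
  have hqg : ∀ s ∈ ball (0 : Fin k → ℂ) r, g s (q s) = w s := by
    intro s hs
    have h1 := hqT s hs
    rw [hT] at h1
    have h2 : (g s (q s) - w s) / D₀ = 0 := by linear_combination -h1
    rw [div_eq_zero_iff] at h2
    exact sub_eq_zero.1 (h2.resolve_right hD₀ne)
  have hq0 : q 0 = q₀ := by
    have h0 : (0 : Fin k → ℂ) ∈ ball (0 : Fin k → ℂ) r := mem_ball_self hr
    have h1 := hT1 0 h0 (q 0) (hqb 0 h0) q₀ (mem_closedBall_self hay0)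
    have h2 : T 0 q₀ = q₀ := by rw [hT, hgq, sub_self, zero_div, sub_zero]
    rw [hqT 0 h0, h2] at h1
    have h3 := norm_nonneg (q 0 - q₀)
    have h4 : ‖q 0 - q₀‖ = 0 := by linarith
    exact sub_eq_zero.1 (norm_eq_zero.1 h4)
  refine ⟨q, ?_, ?_, ?_, ?_⟩
  · rw [hq0]
    have : q₀ - z = (q₀ - ζ 0) - (z - ζ 0) := by ring
    rw [this]
    have hzn := norm_nonneg (z - ζ 0)
    calc ‖(q₀ - ζ 0) - (z - ζ 0)‖ ≤ ‖q₀ - ζ 0‖ + ‖z - ζ 0‖ := norm_sub_le _ _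
      _ ≤ B₁ * y + 1 * ‖z - ζ 0‖ := by linarith
      _ ≤ B * y + B * ‖z - ζ 0‖ := by gcongr
      _ = B * (y + ‖z - ζ 0‖) := by ring
  · rw [hq0]
    exact hq4.trans (mul_le_mul_of_nonneg_right hBB₁ (norm_nonneg _))
  · intro s hs s' hs'
    have hsR : s ∈ ball (0 : Fin k → ℂ) R := ball_subset_ball hrR.le hs
    have hsR' : s' ∈ ball (0 : Fin k → ℂ) R := ball_subset_ball hrR.le hs'
    have h1 := hT1 s hs (q s) (hqb s hs) (q s') (hqb s' hs')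
    have h2 : T s (q s') - T s' (q s') =
        -(((g s (q s') - g s' (q s')) - (w s - w s')) / D₀) := by
      rw [hT, hT]
      ring
    have h3 : ‖T s (q s') - T s' (q s')‖ ≤ (L + 1) * K * ‖s - s'‖ / ‖D₀‖ := by
      rw [h2, norm_neg, norm_div]
      refine div_le_div_of_nonneg_right ?_ hD₀pos.le
      have h4 := hgL s hsR s' hsR' (q s') (hDv s' hs' _ (hqb s' hs')).2.1
      have h5 := hw s hs s' hs'
      have h6 : L * ‖s - s'‖ ≤ L * K * ‖s - s'‖ := by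
        refine mul_le_mul_of_nonneg_right ?_ (norm_nonneg _)
        nlinarith
      calc ‖(g s (q s') - g s' (q s')) - (w s - w s')‖
          ≤ ‖g s (q s') - g s' (q s')‖ + ‖w s - w s'‖ := norm_sub_le _ _
        _ ≤ L * K * ‖s - s'‖ + K * ‖s - s'‖ := by linarith
        _ = (L + 1) * K * ‖s - s'‖ := by ring
    have h4 : ‖q s - q s'‖ ≤ 1 / 4 * ‖q s - q s'‖ + (L + 1) * K * ‖s - s'‖ / ‖D₀‖ := by
      have h5 : q s - q s' = (T s (q s) - T s (q s')) + (T s (q s') - T s' (q s')) := by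
        rw [hqT s hs, hqT s' hs']
        ring
      calc ‖q s - q s'‖ = ‖(T s (q s) - T s (q s')) + (T s (q s') - T s' (q s'))‖ := by rw [← h5]
        _ ≤ ‖T s (q s) - T s (q s')‖ + ‖T s (q s') - T s' (q s')‖ := norm_add_le _ _
        _ ≤ 1 / 4 * ‖q s - q s'‖ + (L + 1) * K * ‖s - s'‖ / ‖D₀‖ := add_le_add h1 h3
    have h6 : ‖q s - q s'‖ ≤ 4 * ((L + 1) * K * ‖s - s'‖ / ‖D₀‖) := by
      have h7 : 0 ≤ (L + 1) * K * ‖s - s'‖ / ‖D₀‖ := by positivity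
      linarith
    calc y ^ m * ‖q s - q s'‖ ≤ (Q * ‖D₀‖) * (4 * ((L + 1) * K * ‖s - s'‖ / ‖D₀‖)) := by gcongr
      _ = (4 * (L + 1) * Q) * (K * ‖s - s'‖) := by field_simp
      _ ≤ (a * B) * (K * ‖s - s'‖) := by gcongr
      _ ≤ (1 * B) * (K * ‖s - s'‖) := by gcongr
      _ = B * K * ‖s - s'‖ := by ring
  · intro s hs
    have h1 := hDv s hs (q s) (hqb s hs)
    exact ⟨ball_subset_ball (hrR.le.trans hRρ) hs, ball_subset_ball hRρ h1.2.1, h1.2.2, hqg s hs⟩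

end Pool.Agent.H734.BT207
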